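import Pool.Agent.Helper82.BR.St2

/-!
# Project BR (MP_514f88_co), module KEL: Kelly's eight points
-/

set_option autoImplicit false

namespace Pool.Agent.Helper48.BR

open Pool.Agent.Helper82.BR (Rich StKEL)

/-- coordinates `(x0 + x1 √3, y0 + y1 √3)` -/
private def pts : Fin 8 → (ℤ × ℤ) × (ℤ × ℤ) :=
  ![((1, 0), (1, 0)), ((-1, 0), (1, 0)), ((-1, 0), (-1, 0)), ((1, 0), (-1, 0)),
    ((1, 1), (0, 0)), ((0, 0), (1, 1)), ((-1, -1), (0, 0)), ((0, 0), (-1, -1))]

/-- squared distances in `ℤ[√3]` -/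
private def dd (i j : Fin 8) : ℤ × ℤ :=
  (((pts i).1.1 - (pts j).1.1) ^ 2 + 3 * ((pts i).1.2 - (pts j).1.2) ^ 2 +
    ((pts i).2.1 - (pts j).2.1) ^ 2 + 3 * ((pts i).2.2 - (pts j).2.2) ^ 2,
   2 * ((pts i).1.1 - (pts j).1.1) * ((pts i).1.2 - (pts j).1.2) +
    2 * ((pts i).2.1 - (pts j).2.1) * ((pts i).2.2 - (pts j).2.2))

private noncomputable def f (i : Fin 8) : ℂ :=
  ⟨((pts i).1.1 : ℝ) + (pts i).1.2 * √3, ((pts i).2.1 : ℝ) + (pts i).2.2 * √3⟩

private lemma key : ∀ i j : Fin 8, i ≠ j → ∃ k l : Fin 8, k ≠ l ∧ dd k i = dd k j ∧ dd l i = dd l j := by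
  decide +kernel

private lemma inj0 : ∀ i j : Fin 8, pts i = pts j → i = j := by
  decide +kernel

private lemma s3 : √3 * √3 = (3 : ℝ) := Real.mul_self_sqrt (by norm_num)

private lemma nsq (i j : Fin 8) : Complex.normSq (f i - f j) = ((dd i j).1 : ℝ) + (dd i j).2 * √3 := by
  rw [Complex.normSq_apply, Complex.sub_re, Complex.sub_im]
  simp only [f, dd]
  push_cast
  linear_combination (((pts i).1.2 - (pts j).1.2 : ℝ) ^ 2 + ((pts i).2.2 - (pts j).2.2 : ℝ) ^ 2) * s3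

private lemma zero_of {a b : ℤ} (h : (a : ℝ) + b * √3 = 0) : a = 0 ∧ b = 0 := by
  have hirr : Irrational (√3 : ℝ) := by
    have := Nat.Prime.irrational_sqrt (show Nat.Prime 3 by norm_num)
    exact_mod_cast this
  have hb : b = 0 := by
    by_contra hb
    have hb' : (b : ℝ) ≠ 0 := by exact_mod_cast hb
    refine hirr ⟨(-a : ℚ) / b, ?_⟩
    push_cast
    rw [div_eq_iff hb']
    linarith
  subst hb
  have ha : (a : ℝ) = 0 := by simpa using h
  exact ⟨by exact_mod_cast ha, rfl⟩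

private lemma inj : Function.Injective f := by
  intro i j h
  apply inj0
  have h1 : ((pts i).1.1 : ℝ) + (pts i).1.2 * √3 = ((pts j).1.1 : ℝ) + (pts j).1.2 * √3 :=
    congrArg Complex.re h
  have h2 : ((pts i).2.1 : ℝ) + (pts i).2.2 * √3 = ((pts j).2.1 : ℝ) + (pts j).2.2 * √3 :=
    congrArg Complex.im h
  have a1 : (pts i).1.1 - (pts j).1.1 = 0 ∧ (pts i).1.2 - (pts j).1.2 = 0 := by
    apply zero_of
    push_cast
    linarith
  have a2 : (pts i).2.1 - (pts j).2.1 = 0 ∧ (pts i).2.2 - (pts j).2.2 = 0 := by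
    apply zero_of
    push_cast
    linarith
  refine Prod.ext (Prod.ext ?_ ?_) (Prod.ext ?_ ?_)
  · exact sub_eq_zero.1 a1.1
  · exact sub_eq_zero.1 a1.2
  · exact sub_eq_zero.1 a2.1
  · exact sub_eq_zero.1 a2.2

private lemma deq {k i j : Fin 8} (h : dd k i = dd k j) : dist (f k) (f i) = dist (f k) (f j) := by
  rw [Complex.dist_eq, Complex.dist_eq, Complex.norm_def, Complex.norm_def, nsq, nsq, h]

/-- KEL. -/
theorem hKEL : StKEL := by
  classical
  refine ⟨Finset.univ.image f, ?_, ?_⟩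
  · rw [Finset.card_image_of_injective _ inj]
    rfl
  · intro p hp q hq hpq
    obtain ⟨i, -, rfl⟩ := Finset.mem_image.1 hp
    obtain ⟨j, -, rfl⟩ := Finset.mem_image.1 hq
    obtain ⟨k, l, hkl, hk, hl⟩ := key i j (fun h => hpq (by rw [h]))
    refine Finset.one_lt_card.2 ⟨f k, ?_, f l, ?_, fun h => hkl (inj h)⟩
    · exact Finset.mem_filter.2 ⟨Finset.mem_image_of_mem _ (Finset.mem_univ _), deq hk⟩
    · exact Finset.mem_filter.2 ⟨Finset.mem_image_of_mem _ (Finset.mem_univ _), deq hl⟩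

end Pool.Agent.Helper48.BR
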