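import Pool.Agent.Helper82.BR.St4

/-!
# Project BR8 (MP_514f88_co), module KR: both of Kelly's sets are rich
-/

set_option autoImplicit false

namespace Pool.Agent.Helper48.BR

open Pool.Agent.Helper82.BR (Rich StKR KC)

/-- coordinates `(x0 + x1 s, y0 + y1 s)`, `s ^ 2 = 3` -/
private def pts : Fin 8 → (ℤ × ℤ) × (ℤ × ℤ) :=
  ![((1, 0), (1, 0)), ((-1, 0), (1, 0)), ((1, 0), (-1, 0)), ((-1, 0), (-1, 0)),
    ((1, 1), (0, 0)), ((-1, -1), (0, 0)), ((0, 0), (1, 1)), ((0, 0), (-1, -1))]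

/-- squared distances in `ℤ[√3]` -/
private def dd (i j : Fin 8) : ℤ × ℤ :=
  (((pts i).1.1 - (pts j).1.1) ^ 2 + 3 * ((pts i).1.2 - (pts j).1.2) ^ 2 +
    ((pts i).2.1 - (pts j).2.1) ^ 2 + 3 * ((pts i).2.2 - (pts j).2.2) ^ 2,
   2 * ((pts i).1.1 - (pts j).1.1) * ((pts i).1.2 - (pts j).1.2) +
    2 * ((pts i).2.1 - (pts j).2.1) * ((pts i).2.2 - (pts j).2.2))

private noncomputable def f (s : ℝ) (i : Fin 8) : ℂ :=
  ⟨((pts i).1.1 : ℝ) + (pts i).1.2 * s, ((pts i).2.1 : ℝ) + (pts i).2.2 * s⟩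

private lemma key : ∀ i j : Fin 8, i ≠ j → ∃ k l : Fin 8, k ≠ l ∧ dd k i = dd k j ∧ dd l i = dd l j := by
  decide +kernel

private lemma inj0 : ∀ i j : Fin 8, pts i = pts j → i = j := by
  decide +kernel

private lemma nsq {s : ℝ} (s3 : s * s = 3) (i j : Fin 8) :
    Complex.normSq (f s i - f s j) = ((dd i j).1 : ℝ) + (dd i j).2 * s := by
  rw [Complex.normSq_apply, Complex.sub_re, Complex.sub_im]
  simp only [f, dd]
  push_cast
  linear_combination (((pts i).1.2 - (pts j).1.2 : ℝ) ^ 2 + ((pts i).2.2 - (pts j).2.2 : ℝ) ^ 2) * s3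

private lemma zero_of {s : ℝ} (hirr : Irrational s) {a b : ℤ} (h : (a : ℝ) + b * s = 0) :
    a = 0 ∧ b = 0 := by
  have hb : b = 0 := by
    by_contra hb
    have hb' : (b : ℝ) ≠ 0 := by exact_mod_cast hb
    refine hirr ⟨(-a : ℚ) / b, ?_⟩
    push_cast
    rw [div_eq_iff hb']
    linarith
  subst hb
  have ha : (a : ℝ) = 0 := by simpa using h
  exact ⟨by exact_mod_cast ha, rfl⟩

private lemma inj {s : ℝ} (hirr : Irrational s) : Function.Injective (f s) := by
  intro i j h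
  apply inj0
  have h1 : ((pts i).1.1 : ℝ) + (pts i).1.2 * s = ((pts j).1.1 : ℝ) + (pts j).1.2 * s :=
    congrArg Complex.re h
  have h2 : ((pts i).2.1 : ℝ) + (pts i).2.2 * s = ((pts j).2.1 : ℝ) + (pts j).2.2 * s :=
    congrArg Complex.im h
  have a1 : (pts i).1.1 - (pts j).1.1 = 0 ∧ (pts i).1.2 - (pts j).1.2 = 0 := by
    apply zero_of hirr
    push_cast
    linarith
  have a2 : (pts i).2.1 - (pts j).2.1 = 0 ∧ (pts i).2.2 - (pts j).2.2 = 0 := by
    apply zero_of hirr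
    push_cast
    linarith
  refine Prod.ext (Prod.ext ?_ ?_) (Prod.ext ?_ ?_)
  · exact sub_eq_zero.1 a1.1
  · exact sub_eq_zero.1 a1.2
  · exact sub_eq_zero.1 a2.1
  · exact sub_eq_zero.1 a2.2

private lemma deq {s : ℝ} (s3 : s * s = 3) {k i j : Fin 8} (h : dd k i = dd k j) :
    dist (f s k) (f s i) = dist (f s k) (f s j) := by
  rw [Complex.dist_eq, Complex.dist_eq, Complex.norm_def, Complex.norm_def, nsq s3, nsq s3, h]

private lemma v0 (s : ℝ) : f s 0 = 1 + Complex.I := by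
  apply Complex.ext <;> simp [f, pts]

private lemma v1 (s : ℝ) : f s 1 = -1 + Complex.I := by
  apply Complex.ext <;> simp [f, pts]

private lemma v2 (s : ℝ) : f s 2 = 1 - Complex.I := by
  apply Complex.ext <;> simp [f, pts]

private lemma v3 (s : ℝ) : f s 3 = -1 - Complex.I := by
  apply Complex.ext <;> simp [f, pts]

private lemma v4 (s : ℝ) : f s 4 = ((1 + s : ℝ) : ℂ) := by
  apply Complex.ext <;> simp [f, pts]

private lemma v5 (s : ℝ) : f s 5 = -((1 + s : ℝ) : ℂ) := by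
  apply Complex.ext
  · simp [f, pts]
    ring
  · simp [f, pts]

private lemma v6 (s : ℝ) : f s 6 = ((1 + s : ℝ) : ℂ) * Complex.I := by
  apply Complex.ext <;> simp [f, pts]

private lemma v7 (s : ℝ) : f s 7 = -(((1 + s : ℝ) : ℂ) * Complex.I) := by
  apply Complex.ext
  · simp [f, pts]
  · simp [f, pts]
    ring

private lemma im_eq (s : ℝ) : Finset.univ.image (f s) = KC (1 + s) := by
  ext z
  constructor
  · intro hz
    obtain ⟨i, -, rfl⟩ := Finset.mem_image.1 hz
    simp only [KC, Finset.mem_insert, Finset.mem_singleton]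
    fin_cases i
    · exact Or.inl (v0 s)
    · exact Or.inr (Or.inl (v1 s))
    · exact Or.inr (Or.inr (Or.inl (v2 s)))
    · exact Or.inr (Or.inr (Or.inr (Or.inl (v3 s))))
    · exact Or.inr (Or.inr (Or.inr (Or.inr (Or.inl (v4 s)))))
    · exact Or.inr (Or.inr (Or.inr (Or.inr (Or.inr (Or.inl (v5 s))))))
    · exact Or.inr (Or.inr (Or.inr (Or.inr (Or.inr (Or.inr (Or.inl (v6 s)))))))
    · exact Or.inr (Or.inr (Or.inr (Or.inr (Or.inr (Or.inr (Or.inr (v7 s)))))))
  · intro hz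
    simp only [KC, Finset.mem_insert, Finset.mem_singleton] at hz
    rcases hz with h | h | h | h | h | h | h | h
    · exact Finset.mem_image.2 ⟨0, Finset.mem_univ _, by rw [h]; exact v0 s⟩
    · exact Finset.mem_image.2 ⟨1, Finset.mem_univ _, by rw [h]; exact v1 s⟩
    · exact Finset.mem_image.2 ⟨2, Finset.mem_univ _, by rw [h]; exact v2 s⟩
    · exact Finset.mem_image.2 ⟨3, Finset.mem_univ _, by rw [h]; exact v3 s⟩
    · exact Finset.mem_image.2 ⟨4, Finset.mem_univ _, by rw [h]; exact v4 s⟩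
    · exact Finset.mem_image.2 ⟨5, Finset.mem_univ _, by rw [h]; exact v5 s⟩
    · exact Finset.mem_image.2 ⟨6, Finset.mem_univ _, by rw [h]; exact v6 s⟩
    · exact Finset.mem_image.2 ⟨7, Finset.mem_univ _, by rw [h]; exact v7 s⟩

private lemma main (s : ℝ) (s3 : s * s = 3) (hirr : Irrational s) :
    Rich (KC (1 + s)) ∧ (KC (1 + s)).card = 8 := by
  rw [← im_eq]
  refine ⟨?_, ?_⟩
  · intro p hp q hq hpq
    obtain ⟨i, -, rfl⟩ := Finset.mem_image.1 hp
    obtain ⟨j, -, rfl⟩ := Finset.mem_image.1 hq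
    obtain ⟨k, l, hkl, hk, hl⟩ := key i j (fun h => hpq (by rw [h]))
    refine Finset.one_lt_card.2 ⟨f s k, ?_, f s l, ?_, fun h => hkl (inj hirr h)⟩
    · exact Finset.mem_filter.2 ⟨Finset.mem_image_of_mem _ (Finset.mem_univ _), deq s3 hk⟩
    · exact Finset.mem_filter.2 ⟨Finset.mem_image_of_mem _ (Finset.mem_univ _), deq s3 hl⟩
  · rw [Finset.card_image_of_injective _ (inj hirr)]
    rfl

/-- KR. -/
theorem hKR : StKR := by
  intro h hh
  have hirr : Irrational (√3 : ℝ) := by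
    have := Nat.Prime.irrational_sqrt (show Nat.Prime 3 by norm_num)
    exact_mod_cast this
  have s3 : √3 * √3 = (3 : ℝ) := Real.mul_self_sqrt (by norm_num)
  rcases hh with rfl | rfl
  · exact main _ s3 hirr
  · rw [sub_eq_add_neg]
    exact main _ (by rw [neg_mul_neg]; exact s3) hirr.neg

end Pool.Agent.Helper48.BR
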